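import Mathlib
import Pool.Agent.H632R3.DihFam

open Filter Topology
open Pool.Agent.H632R3.RCG Pool.Agent.H632R3.Dih

namespace Pool.Agent.Results.MP_d87a8f_pr.DihedralLargeK

/-- In the regime `k ≫ log |G|` there need not be cutoff at `t_*`: for dihedral groups and all
`k` with `k / log |G| → ∞` that are at most a power of `log |G|`, the walk is far from uniform at
time `(1 + ε) t_*`, for every choice of the generators. -/
theorem result :
    (∃ (G : ℕ → Type) (_ : ∀ j, Group (G j)) (_ : ∀ j, Fintype (G j)) (k : ℕ → ℕ),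
      Tendsto (fun j => Nat.card (G j)) atTop atTop ∧
      Tendsto (fun j => (k j : ℝ) / Real.log (Nat.card (G j))) atTop atTop ∧
      Tendsto (fun j => Real.log (k j) / Real.log (Nat.card (G j))) atTop (𝓝 0) ∧
      ¬ CutoffWhpAt G k (fun j => tStar (G j) (k j))) ∧
    (∀ (N k : ℕ → ℕ) (_ : ∀ j, NeZero (N j)) (C : ℝ), 0 < C →
      Tendsto (fun j => Nat.card (DihedralGroup (N j))) atTop atTop →
      Tendsto (fun j => (k j : ℝ) / Real.log (Nat.card (DihedralGroup (N j)))) atTop atTop →
      (∀ᶠ j in atTop, (k j : ℝ) ≤ Real.log (Nat.card (DihedralGroup (N j))) ^ C) →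
      Tendsto (fun j => Real.log (k j) / Real.log (Nat.card (DihedralGroup (N j)))) atTop
        (𝓝 0) ∧
      (∃ ε : ℝ, 0 < ε ∧ ε < 1 ∧ ∀ δ : ℝ, 0 < δ → ∀ᶠ j in atTop,
        ∀ Z : Fin (k j) → DihedralGroup (N j),
          1 - δ ≤ tvDist Z ((1 + ε) * tStar (DihedralGroup (N j)) (k j))) ∧
      ¬ CutoffWhpAt (fun j => DihedralGroup (N j)) k
        (fun j => tStar (DihedralGroup (N j)) (k j))) := by
  constructor
  · exact ⟨fun j => DihedralGroup (2 ^ j), inferInstance, inferInstance, kk, card_tendsto,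
      kk_div, kk_log_div,
      noCutoff (fun j => 2 ^ j) kk kk_tendsto (by norm_num : (0 : ℝ) < 3) kk_le⟩
  · intro N k _ C hC hn hkn hkN
    have hkN' : ∀ᶠ j in atTop, (k j : ℝ) ≤ Real.log (2 * N j) ^ C := by
      filter_upwards [hkN] with j h1
      rw [card_G] at h1
      push_cast at h1 ⊢
      exact h1
    have hlog : Tendsto (fun j => Real.log (Nat.card (DihedralGroup (N j)))) atTop atTop :=
      Real.tendsto_log_atTop.comp (tendsto_natCast_atTop_atTop.comp hn)
    have hk : Tendsto k atTop atTop := by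
      rw [← tendsto_natCast_atTop_iff (R := ℝ)]
      refine (hkn.atTop_mul_atTop₀ hlog).congr' ?_
      filter_upwards [hlog.eventually_gt_atTop 0] with j h1
      rw [div_mul_cancel₀ _ h1.ne']
    exact ⟨log_div_tendsto N k hk hC hkN', family N k hk hC hkN', noCutoff N k hk hC hkN'⟩

end Pool.Agent.Results.MP_d87a8f_pr.DihedralLargeK
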